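import Pool.Agent.AEC.StmtsZ

/-!
# Squad AEC, row EXR: representatives of diagrams
-/

open FirstOrder FirstOrder.Language Cardinal Set

universe u

namespace Pool.Agent.AEC.H77

theorem exr (dge : DgeStmt.{u}) : ExrStmt.{u} := by
  intro L κ K Ω
  have h1 : ∀ (D D' : Set (Fact L Ω)), K.Ext D D' → ∀ (P : K.Plc D) (P' : K.Plc D'),
      ∃ f : K.Hom P.A P'.A, ∀ x, P'.φ (f x) = P.φ x := by
    rintro D D' ⟨P₀, P₀', f₀, hf⟩ P P'
    obtain ⟨e, he⟩ := dge L Ω P.A.α P₀.A.α P.φ P₀.φ P.inj P₀.inj (P.eq.trans P₀.eq.symm)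
    obtain ⟨e', he'⟩ := dge L Ω P₀'.A.α P'.A.α P₀'.φ P'.φ P₀'.inj P'.inj
      (P₀'.eq.trans P'.eq.symm)
    refine ⟨(AEC.Hom.ofEquiv e').comp (f₀.comp (AEC.Hom.ofEquiv e)), fun x => ?_⟩
    rw [AEC.Hom.comp_apply, AEC.Hom.ofEquiv_apply, he', AEC.Hom.comp_apply, hf,
      AEC.Hom.ofEquiv_apply, he]
  refine ⟨h1, ?_, ?_, ?_⟩
  · rintro D D' D'' ⟨P, P', f, hf⟩ h
    obtain ⟨Q', Q'', g, hg⟩ := id h
    obtain ⟨f', hf'⟩ := h1 D' D'' h P' Q''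
    exact ⟨P, Q'', f'.comp f, fun x => by rw [AEC.Hom.comp_apply, hf', hf]⟩
  · rintro D ⟨P⟩
    exact ⟨P, P, AEC.Hom.id P.A, fun x => by rw [AEC.Hom.id_apply]⟩
  · rintro D D' ⟨P, P', f, hf⟩ F hF
    rw [← P.eq] at hF
    rw [← P'.eq]
    rcases F with x | ⟨n, R, x⟩ | ⟨n, g, x, b⟩
    · obtain ⟨a, ha⟩ := hF
      exact ⟨f a, by rw [hf, ha]⟩
    · obtain ⟨y, hR, hy⟩ := hF
      exact ⟨fun i => f (y i), (f.toEmb.map_rel R y).2 hR, fun i => by rw [hf, hy]⟩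
    · obtain ⟨y, hy, hb⟩ := hF
      refine ⟨fun i => f (y i), fun i => by rw [hf, hy], ?_⟩
      have h2 : f (Structure.funMap g y) = Structure.funMap g fun i => f (y i) :=
        f.toEmb.map_fun g y
      rw [← h2, hf, hb]

end Pool.Agent.AEC.H77
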