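import Pool.Agent.AEC.StmtsB

/-!
# Squad AEC, row REL: relative smoothness
-/

open FirstOrder FirstOrder.Language Cardinal Set

universe u

namespace Pool.Agent.AEC.H77

section tr

variable {L : FirstOrder.Language.{u, u}} {U : Type u} [L.Structure U]

/-- a substructure `S ≤ T` as a substructure of the structure `T` -/
def rel (S T : L.Substructure U) : L.Substructure T := S.comap T.subtype.toHom

theorem mem_rel {S T : L.Substructure U} (x : T) : x ∈ rel S T ↔ (x : U) ∈ S := Iff.rfl

/-- `rel S T` and `S` are isomorphic -/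
def relEquiv {S T : L.Substructure U} (h : S ≤ T) : (rel S T) ≃[L] S where
  toFun x := ⟨x.1.1, x.2⟩
  invFun x := ⟨⟨x.1, h x.2⟩, x.2⟩
  left_inv _ := rfl
  right_inv _ := rfl
  map_fun' _ _ := rfl
  map_rel' _ _ := Iff.rfl

variable {κ : Cardinal.{u}} (K : AEC L κ)

theorem emb_rel {S T : L.Substructure U} (h : S ≤ T) :
    K.emb (Substructure.inclusion h) ↔ K.emb (rel S T).subtype := by
  constructor
  · intro h1
    have h2 : K.mem (rel S T) := K.cod (K.iso (K.dom h1) (relEquiv h).symm)
    have h3 : (rel S T).subtype = (Substructure.inclusion h).comp (relEquiv h).toEmbedding := by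
      ext x
      rfl
    rw [h3]
    exact K.comp (K.iso h2 (relEquiv h)) h1
  · intro h1
    have h2 : K.mem S := K.cod (K.iso (K.dom h1) (relEquiv h))
    have h3 : Substructure.inclusion h = (rel S T).subtype.comp (relEquiv h).symm.toEmbedding := by
      ext x
      rfl
    rw [h3]
    exact K.comp (K.iso h2 (relEquiv h).symm) h1

theorem rel_iSup {I : Type u} [Nonempty I] (S : I → L.Substructure U) (T : L.Substructure U)
    (hd : Directed (· ≤ ·) S) : rel (⨆ i, S i) T = ⨆ i, rel (S i) T := by
  have hd' : Directed (· ≤ ·) (fun i => rel (S i) T) := by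
    intro i j
    obtain ⟨k, hi, hj⟩ := hd i j
    exact ⟨k, fun x hx => hi hx, fun x hx => hj hx⟩
  ext x
  rw [mem_rel, Substructure.mem_iSup_of_directed hd, Substructure.mem_iSup_of_directed hd']
  rfl

end tr

theorem rel_ : RelStmt := by
  intro L κ K U _ I _ _ _ S T hS h hemb hlim
  rw [emb_rel K (iSup_le h), rel_iSup S T hS.directed_le]
  refine K.smooth (fun i => rel (S i) T) (fun i j hij x hx => hS hij hx)
    (fun i => (emb_rel K (h i)).1 (hemb i)) ?_
  intro i hi
  obtain ⟨j, hj⟩ := not_isMin_iff.1 hi.1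
  have : Nonempty (Set.Iio i) := ⟨⟨j, hj⟩⟩
  have h2 : Directed (· ≤ ·) (fun j : Set.Iio i => S j) :=
    Monotone.directed_le fun a b hab => hS hab
  have h3 := rel_iSup (fun j : Set.Iio i => S j) T h2
  show rel (S i) T = ⨆ j : Set.Iio i, rel (S j) T
  rw [← h3, ← hlim i hi]

end Pool.Agent.AEC.H77
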