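import Pool.Agent.AEC.StmtsS

/-!
# Squad AEC, row S_SEP: the component of `c` has few neighbours
-/

set_option autoImplicit false

open FirstOrder FirstOrder.Language Cardinal Set

universe u

namespace Pool.Agent.AEC.S.H77

section graph

variable {L : FirstOrder.Language.{u, u}} {N N' : Type u} [L.Structure N] [L.Structure N']

theorem adj_symm {x y : N} (h : adj L x y) : adj L y x := by
  obtain ⟨h1, n, R, v, h2, h3, h4⟩ := h
  exact ⟨h1.symm, n, R, v, h2, h4, h3⟩

theorem adj_map (f : N ↪[L] N') {x y : N} (h : adj L x y) : adj L (f x) (f y) := by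
  obtain ⟨h1, n, R, v, h2, ⟨i, rfl⟩, ⟨j, rfl⟩⟩ := h
  exact ⟨fun h => h1 (f.injective h), n, R, f ∘ v, (f.map_rel R v).2 h2, ⟨i, rfl⟩, ⟨j, rfl⟩⟩

theorem con_symm {T : Set N} {c z : N} (hc : c ∉ T) (h : con L T c z) :
    z ∉ T ∧ con L T z c := by
  induction h with
  | refl => exact ⟨hc, Relation.ReflTransGen.refl⟩
  | tail _ h2 ih => exact ⟨h2.2, Relation.ReflTransGen.head ⟨adj_symm h2.1, ih.1⟩ ih.2⟩

theorem con_map {T : Set N} {T' : Set N'} (f : N → N')
    (hf : ∀ a b, adj L a b → adj L (f a) (f b)) (hT : ∀ b, b ∉ T → f b ∉ T') {x y : N}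
    (h : con L T x y) : con L T' (f x) (f y) := by
  induction h with
  | refl => exact Relation.ReflTransGen.refl
  | tail _ h2 ih => exact Relation.ReflTransGen.tail ih ⟨hf _ _ h2.1, hT _ h2.2⟩

theorem con_mono {T T' : Set N} (hT : T' ⊆ T) {x y : N} (h : con L T x y) : con L T' x y :=
  con_map (fun a => a) (fun _ _ h => h) (fun _ h h' => h (hT h')) h

end graph

section em

variable {L : FirstOrder.Language.{u, u}} {κ : Cardinal.{u}} {K : AEC L κ} (E : K.EM)
  {J : Type u} [LinearOrder J] (o : J)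

/-- the range of `E({o}ᶜ)` in `E(J)` -/
def Mo : Set (E.obj J).α :=
  Set.range (E.map (OrderEmbedding.subtype fun i : J => i ∈ ({o}ᶜ : Set J)))

theorem fix_M {x : (E.obj J).α} (hx : x ∈ Mo E o) : ∃ s : Finset J, ∀ σ : J ≃o J,
    (∀ a ∈ s, a ≠ o → σ a = a) → E.map σ.toOrderEmbedding x = x := by
  classical
  obtain ⟨x', rfl⟩ := hx
  obtain ⟨s, w, rfl⟩ := E.supp {i : J // i ∈ ({o}ᶜ : Set J)} x'
  refine ⟨s.image Subtype.val, fun σ hσ => ?_⟩
  let a : ((s : Set {i : J // i ∈ ({o}ᶜ : Set J)}) : Type u) ↪o {i : J // i ∈ ({o}ᶜ : Set J)} :=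
    OrderEmbedding.subtype fun i => i ∈ (s : Set {i : J // i ∈ ({o}ᶜ : Set J)})
  let b : {i : J // i ∈ ({o}ᶜ : Set J)} ↪o J :=
    OrderEmbedding.subtype fun i : J => i ∈ ({o}ᶜ : Set J)
  have h1 : E.map (a.trans b) w = E.map b (E.map a w) := E.map_comp a b _ (fun _ => rfl) w
  have h2 : E.map (a.trans b) w = E.map σ.toOrderEmbedding (E.map (a.trans b) w) := by
    refine E.map_comp _ _ _ (fun i => ?_) w
    show (i.1.1 : J) = σ i.1.1
    exact (hσ _ (Finset.mem_image_of_mem _ i.2) i.1.2).symm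
  show E.map σ.toOrderEmbedding (E.map b (E.map a w)) = E.map b (E.map a w)
  rw [← h1]
  exact h2.symm

theorem mov_M (t : (E.obj J).α) : ∃ s : Finset J, ∀ σ : J ≃o J,
    (∀ a ∈ s, a ≠ o → σ a = a) → σ o ≠ o → E.map σ.toOrderEmbedding t ∈ Mo E o := by
  obtain ⟨s, w, rfl⟩ := E.supp J t
  refine ⟨s, fun σ hσ ho => ?_⟩
  have h0 : ∀ i : (s : Set J), σ i.1 ∈ ({o}ᶜ : Set J) := by
    intro i h
    have h1 : σ i.1 = o := h
    by_cases h2 : i.1 = o
    · rw [h2] at h1
      exact ho h1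
    · rw [hσ i.1 i.2 h2] at h1
      exact h2 h1
  let a : ((s : Set J) : Type u) ↪o J := OrderEmbedding.subtype fun i => i ∈ (s : Set J)
  let b : {i : J // i ∈ ({o}ᶜ : Set J)} ↪o J :=
    OrderEmbedding.subtype fun i : J => i ∈ ({o}ᶜ : Set J)
  let ρ : ((s : Set J) : Type u) ↪o {i : J // i ∈ ({o}ᶜ : Set J)} :=
    { toFun := fun i => ⟨σ i.1, h0 i⟩
      inj' := fun i j h => Subtype.ext (σ.injective (congrArg Subtype.val h))
      map_rel_iff' := by
        intro i j
        exact σ.le_iff_le }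
  have h1 : E.map (a.trans σ.toOrderEmbedding) w = E.map σ.toOrderEmbedding (E.map a w) :=
    E.map_comp _ _ _ (fun _ => rfl) w
  have h2 : E.map (a.trans σ.toOrderEmbedding) w = E.map b (E.map ρ w) :=
    E.map_comp _ _ _ (fun _ => rfl) w
  exact ⟨E.map ρ w, by rw [← h1, h2]⟩

end em

theorem sep : SepStmt.{u} := by
  intro L κ K E J _ o hσ hsp c hc
  by_contra hcon
  rw [not_le] at hcon
  obtain ⟨x, ⟨hxM, z, hz, hxz⟩, y, ⟨hyM, z', hz', hyz'⟩, T, hT, hxT, hyT, hn⟩ := hsp _ hcon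
  have hκ := K.aleph0_le
  obtain ⟨sx, hsx⟩ := fix_M E o hxM
  obtain ⟨sy, hsy⟩ := fix_M E o hyM
  choose st hst using mov_M E o
  have hfin : ∀ s : Finset J, #(s : Set J) ≤ κ := fun s =>
    (Finset.finite_toSet s).lt_aleph0.le.trans hκ
  have hA : #(((sx : Set J) ∪ (sy : Set J)) ∪ ⋃ t : T, (st t : Set J) : Set J) ≤ κ := by
    refine (mk_union_le _ _).trans (add_le_of_le hκ
      ((mk_union_le _ _).trans (add_le_of_le hκ (hfin sx) (hfin sy))) ?_)
    refine (mk_iUnion_le _).trans ?_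
    refine (mul_le_mul' hT (ciSup_le' fun t : T => hfin (st t.1))).trans ?_
    rw [mul_eq_self hκ]
  obtain ⟨σ, h1, h2⟩ := hσ _ hA
  have hgx : E.map σ.toOrderEmbedding x = x :=
    hsx σ fun a ha => h1 a (Or.inl (Or.inl ha))
  have hgy : E.map σ.toOrderEmbedding y = y :=
    hsy σ fun a ha => h1 a (Or.inl (Or.inr ha))
  have hgT : ∀ t ∈ T, E.map σ.toOrderEmbedding t ∈ Mo E o := fun t ht =>
    hst t σ (fun a ha => h1 a (Or.inr (mem_iUnion.2 ⟨⟨t, ht⟩, ha⟩))) h2
  have hinv : ∀ a, E.map σ.symm.toOrderEmbedding (E.map σ.toOrderEmbedding a) = a := by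
    intro a
    have e1 : E.map (RelEmbedding.trans σ.toOrderEmbedding σ.symm.toOrderEmbedding) a =
      E.map σ.symm.toOrderEmbedding (E.map σ.toOrderEmbedding a) :=
      E.map_comp _ _ _ (fun _ => rfl) a
    rw [← e1]
    exact E.map_id J _ (fun i => σ.symm_apply_apply i) a
  have hinv' : ∀ a, E.map σ.toOrderEmbedding (E.map σ.symm.toOrderEmbedding a) = a := by
    intro a
    have e1 : E.map (RelEmbedding.trans σ.symm.toOrderEmbedding σ.toOrderEmbedding) a =
      E.map σ.toOrderEmbedding (E.map σ.symm.toOrderEmbedding a) :=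
      E.map_comp _ _ _ (fun _ => rfl) a
    rw [← e1]
    exact E.map_id J _ (fun i => σ.apply_symm_apply i) a
  set gT : Set (E.obj J).α := (E.map σ.toOrderEmbedding) '' T with hgTd
  have hsub : gT ⊆ Mo E o := by
    rintro _ ⟨t, ht, rfl⟩
    exact hgT t ht
  -- the path
  have hzM : z ∉ Mo E o := (con_symm hc hz).1
  have p1 : con L gT x z := Relation.ReflTransGen.single ⟨hxz, fun h => hzM (hsub h)⟩
  have p2 : con L gT z c := con_mono hsub (con_symm hc hz).2
  have p3 : con L gT c z' := con_mono hsub hz'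
  have hygT : y ∉ gT := by
    rintro ⟨t, ht, hty⟩
    have : t = y := (E.map σ.toOrderEmbedding).injective (hty.trans hgy.symm)
    exact hyT (this ▸ ht)
  have p4 : con L gT z' y := Relation.ReflTransGen.single ⟨adj_symm hyz', hygT⟩
  have p5 : con L gT x y := ((p1.trans p2).trans p3).trans p4
  -- apply the inverse
  have p6 : con L T (E.map σ.symm.toOrderEmbedding x) (E.map σ.symm.toOrderEmbedding y) := by
    refine con_map (fun a => E.map σ.symm.toOrderEmbedding a)
      (fun a b hab => adj_map (E.map σ.symm.toOrderEmbedding).toEmb hab) (fun b hb h => ?_) p5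
    exact hb ⟨_, h, hinv' b⟩
  have hx' : E.map σ.symm.toOrderEmbedding x = x := by
    have := hinv x
    rwa [hgx] at this
  have hy' : E.map σ.symm.toOrderEmbedding y = y := by
    have := hinv y
    rwa [hgy] at this
  rw [hx', hy'] at p6
  exact hn p6

end Pool.Agent.AEC.S.H77
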